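import Pool.Agent.W544.PG.Defs

/-!
# Extending operators of the commutant (project PG, part EXT)
-/

set_option autoImplicit false

open Matrix Finset Module

namespace Pool.Agent.W570.PG

open Pool.Agent.W544.PG

lemma mulVec_dual {p q : ℕ} (F : Matrix (Fin p) (Fin q) ℂ) (v : Fin p → ℂ)
    (h : ∀ u : Fin q → ℂ, v ⬝ᵥ (F *ᵥ u) = 0) : Fᴴ *ᵥ (star v) = 0 := by
  have h1 : v ᵥ* F = 0 := by
    ext j
    have := h (Pi.single j 1)
    rw [dotProduct_mulVec] at this
    simpa using this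
  rw [← star_vecMul, h1, star_zero]

lemma key {p q : ℕ} (S : Set (Matrix (Fin p) (Fin q) ℂ)) (c : Matrix (Fin q) (Fin q) ℂ)
    (ha : ∀ w : Fin p → ℂ, (∀ F ∈ S, Fᴴ *ᵥ w = 0) → w = 0)
    (hc : ∀ F ∈ S, ∀ F' ∈ S, c * (F'ᴴ * F) = F'ᴴ * F * c) :
    ∃ c₁ : Matrix (Fin p) (Fin p) ℂ, ∀ F ∈ S, c₁ * F = F * c ∧ c * Fᴴ = Fᴴ * c₁ := by
  classical
  let M : Submodule ℂ (Fin p → ℂ) :=
    { carrier := {w | ∃ w' : Fin p → ℂ, ∀ F ∈ S, Fᴴ *ᵥ w' = c *ᵥ (Fᴴ *ᵥ w)}
      zero_mem' := ⟨0, fun F _ => by simp⟩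
      add_mem' := by
        rintro a b ⟨a', h1⟩ ⟨b', h2⟩
        exact ⟨a' + b', fun F hF => by simp only [mulVec_add, h1 F hF, h2 F hF]⟩
      smul_mem' := by
        rintro t a ⟨a', h1⟩
        exact ⟨t • a', fun F hF => by simp only [mulVec_smul, h1 F hF]⟩ }
  have hM1 : ∀ F ∈ S, ∀ u : Fin q → ℂ, F *ᵥ u ∈ M := by
    intro F hF u
    refine ⟨F *ᵥ (c *ᵥ u), fun F' hF' => ?_⟩
    rw [mulVec_mulVec, mulVec_mulVec, mulVec_mulVec, mulVec_mulVec, ← hc F hF F' hF',
      Matrix.mul_assoc]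
  have hM : M = ⊤ := by
    by_contra hne
    obtain ⟨f, hf0, hf⟩ := Submodule.exists_le_ker_of_lt_top M (lt_top_iff_ne_top.2 hne)
    apply hf0
    set v : Fin p → ℂ := fun i => f (Pi.single i 1) with hv
    have hfv : ∀ w, f w = v ⬝ᵥ w := by
      intro w
      have h1 : w = ∑ i, w i • (Pi.single i (1 : ℂ) : Fin p → ℂ) := by
        ext j
        simp [Finset.sum_apply, Pi.single_apply]
      conv_lhs => rw [h1]
      rw [map_sum]
      simp only [map_smul, smul_eq_mul, dotProduct, hv]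
      exact Finset.sum_congr rfl fun i _ => mul_comm _ _
    have h2 : star v = 0 := by
      apply ha
      intro F hF
      apply mulVec_dual
      intro u
      rw [← hfv]
      exact hf (hM1 F hF u)
    have h3 : v = 0 := by
      rw [← star_star v, h2, star_zero]
    ext w
    simp [hfv, h3]
  have hex : ∀ w : Fin p → ℂ, ∃ w' : Fin p → ℂ, ∀ F ∈ S, Fᴴ *ᵥ w' = c *ᵥ (Fᴴ *ᵥ w) := by
    intro w
    have : w ∈ M := hM ▸ Submodule.mem_top
    exact this
  choose g hg using hex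
  let c₁ : Matrix (Fin p) (Fin p) ℂ := Matrix.of fun j i => g (Pi.single i 1) j
  have h1 : ∀ F ∈ S, c * Fᴴ = Fᴴ * c₁ := by
    intro F hF
    apply Matrix.ext_of_mulVec_single
    intro i
    rw [← mulVec_mulVec, ← mulVec_mulVec, ← hg (Pi.single i 1) F hF]
    congr 1
    ext j
    simp [c₁, mulVec_single]
  refine ⟨c₁, fun F hF => ⟨?_, h1 F hF⟩⟩
  apply Matrix.ext_of_mulVec_single
  intro i
  rw [← sub_eq_zero]
  apply ha
  intro F' hF'
  rw [mulVec_sub, mulVec_mulVec, mulVec_mulVec, ← Matrix.mul_assoc, ← Matrix.mul_assoc,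
    ← h1 F' hF', Matrix.mul_assoc, hc F hF F' hF', sub_self]

theorem W0_bot {p q : ℕ} (G : Gr p q) (hp : 0 < p) (hq : 0 < q) (hI : G.IrrA) (hK : G.KerB) :
    ∀ w : Fin p → ℂ, (∀ F ∈ G.h1, Fᴴ *ᵥ w = 0) → w = 0 := by
  let W : Submodule ℂ (Fin p → ℂ) :=
    { carrier := {w | ∀ F ∈ G.h1, Fᴴ *ᵥ w = 0}
      zero_mem' := fun F _ => by simp
      add_mem' := by
        intro a b ha hb F hF
        rw [mulVec_add, ha F hF, hb F hF, add_zero]
      smul_mem' := by
        intro t a ha F hF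
        rw [mulVec_smul, ha F hF, smul_zero] }
  have hst : ∀ X ∈ G.h0, ∀ w ∈ W, X.1 *ᵥ w ∈ W := by
    intro X hX w hw F hF
    have h1 := G.b01 _ (G.star0 X hX) F hF
    simp only at h1
    have h2 := hw _ h1
    rw [conjTranspose_sub, conjTranspose_mul, conjTranspose_mul, conjTranspose_conjTranspose,
      conjTranspose_conjTranspose, sub_mulVec, ← mulVec_mulVec, ← mulVec_mulVec, hw F hF,
      mulVec_zero, sub_zero] at h2
    exact h2
  rcases hI W hst with h | h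
  · intro w hw
    have : w ∈ W := hw
    rw [h] at this
    simpa using this
  · exfalso
    have h0 : ∀ F ∈ G.h1, F = 0 := by
      intro F hF
      have h1 : Fᴴ = 0 := by
        apply Matrix.ext_of_mulVec_single
        intro i
        have : (Pi.single i 1 : Fin p → ℂ) ∈ W := h ▸ Submodule.mem_top
        rw [this F hF, zero_mulVec]
      rw [← conjTranspose_conjTranspose F, h1, conjTranspose_zero]
    have h2 : (Pi.single ⟨0, hq⟩ 1 : Fin q → ℂ) = 0 := hK _ fun F hF => by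
      rw [h0 F hF, zero_mulVec]
    have h3 := congrFun h2 ⟨0, hq⟩
    simp at h3

theorem ext : S_ext := by
  intro p q G A hp hq hA hI hK hL c hc
  have ha := W0_bot G hp hq hI hK
  have hcom : ∀ a ∈ A, c * a = a * c := hc
  obtain ⟨c₁, h1⟩ := key (G.h1 : Set (Matrix (Fin p) (Fin q) ℂ)) c ha
    (fun F hF F' hF' => hcom _ (hL F hF F' hF'))
  have hmap : ∀ F : Matrix (Fin p) (Fin q) ℂ, (F.map star)ᴴ = Fᵀ := by
    intro F
    ext i j
    simp
  obtain ⟨c₂, h2⟩ := key {H : Matrix (Fin p) (Fin q) ℂ | ∃ F ∈ G.h1, H = F.map star} c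
    (by
      intro w hw
      have : star w = 0 := by
        apply ha
        intro F hF
        have h3 := hw _ ⟨F, hF, rfl⟩
        rw [hmap] at h3
        have h4 : Fᴴ *ᵥ star w = star (Fᵀ *ᵥ w) := by
          ext j
          simp [mulVec, dotProduct, star_sum, mul_comm]
        rw [h4, h3, star_zero]
      rw [← star_star w, this, star_zero])
    (by
      rintro _ ⟨F, hF, rfl⟩ _ ⟨F', hF', rfl⟩
      rw [hmap]
      have h3 : F'ᵀ * F.map star = (Fᴴ * F')ᵀ := by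
        rw [transpose_mul]
        congr 1
      rw [h3]
      exact hcom _ (hA.tr _ (hL F' hF' F hF)))
  have h3 : ∀ F ∈ G.h1, c₂ * F.map star = F.map star * c ∧ c * Fᵀ = Fᵀ * c₂ := by
    intro F hF
    have := h2 _ ⟨F, hF, rfl⟩
    rwa [hmap] at this
  refine ⟨c₁, c₂, ?_⟩
  rintro y ⟨F, hF, rfl | rfl⟩
  · obtain ⟨a1, a2⟩ := h1 F hF
    obtain ⟨a3, a4⟩ := h3 F hF
    simp only [big1, fromBlocks_multiply, Matrix.mul_zero, Matrix.zero_mul, add_zero, zero_add,
      Matrix.mul_fromCols, Matrix.fromCols_mul_fromBlocks, Matrix.mul_neg, Matrix.neg_mul, neg_zero, a1, a4]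
  · obtain ⟨a1, a2⟩ := h1 F hF
    obtain ⟨a3, a4⟩ := h3 F hF
    have e1 : (big1 F)ᴴ = (fromBlocks 0 0 (fromRows Fᴴ 0) (fromBlocks 0 0 (-F.map star) 0) :
        Matrix (I p q) (I p q) ℂ) := by
      unfold big1
      rw [fromBlocks_conjTranspose, fromBlocks_conjTranspose,
        conjTranspose_fromCols_eq_fromRows_conjTranspose]
      simp only [conjTranspose_zero, conjTranspose_neg]
      rfl
    rw [e1]
    simp only [fromBlocks_multiply, Matrix.mul_zero, Matrix.zero_mul, add_zero, zero_add,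
      Matrix.fromBlocks_mul_fromRows, Matrix.fromRows_mul, Matrix.mul_neg, Matrix.neg_mul, neg_zero, a2, a3]

end Pool.Agent.W570.PG
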